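import Pool.Agent.Helper60.SP.Word
import Pool.Agent.Helper60.SP.Sec

/-!
# SP-SUMA: the sum over the words, open case

`union_bound` is the union bound over all words (used also for the other case).
-/

set_option autoImplicit false

namespace Pool.Agent.Helper96.SP

open Pool.Agent.Helper6.IP Pool.Agent.Helper60.SP

variable {n : ℕ} {A : Type} [AddCommGroup A] {N : ℕ}

theorem walk_congr {w w' : ℕ → Fin 3} {i : ℕ} (h : ∀ j < i, w j = w' j) : walk w i = walk w' i := by
  induction i with
  | zero => rfl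
  | succ i ih =>
    change turn (w i) (walk w i) = turn (w' i) (walk w' i)
    rw [ih (fun j hj => h j (by omega)), h i (by omega)]

theorem outs_congr {w w' : ℕ → Fin 3} {m : ℕ} (h : ∀ j, j + 1 < m → w j = w' j) :
    outs w m = outs w' m := by
  have h1 : ∀ i ∈ Finset.range m, walk w i = walk w' i := fun i hi =>
    walk_congr fun j hj => h j (by have := Finset.mem_range.1 hi; omega)
  unfold outs
  rw [Finset.filter_congr (q := fun i => (walk w' i).2 = 0 ∨ (walk w' i).2 = 1)
    (fun i hi => by rw [h1 i hi])]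
  refine Finset.image_congr fun i hi => ?_
  have hi' : i ∈ Finset.range m := Finset.mem_of_mem_filter i (Finset.mem_coe.1 hi)
  simp only [h1 i hi']

/-- The word with the given first turns. -/
def ext (m : ℕ) (u : Fin (m - 1) → Fin 3) : ℕ → Fin 3 := fun i =>
  if h : i < m - 1 then u ⟨i, h⟩ else 0

theorem outs_ext (w : ℕ → Fin 3) (m : ℕ) : outs w m = outs (ext m (fun i => w i)) m := by
  refine outs_congr fun j hj => ?_
  unfold ext
  rw [dif_pos (by omega)]

theorem owners_ext (w : ℕ → Fin 3) (m : ℕ) : owners w m = owners (ext m (fun i => w i)) m := by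
  unfold owners
  rw [← outs_ext]

/-- A slot of the node which occurs. -/
def slot (w : ℕ → Fin 3) (m : ℕ) (v : ℕ × ℕ) : Bool := decide ((v, true) ∈ outs w m)

theorem slot_mem {w : ℕ → Fin 3} {m : ℕ} {v : ℕ × ℕ} (h : v ∈ owners w m) :
    (v, slot w m v) ∈ outs w m := by
  unfold owners at h
  obtain ⟨⟨v', b⟩, hp, hv⟩ := Finset.mem_image.1 (Finset.mem_of_mem_erase h)
  change v' = v at hv
  subst hv
  unfold slot
  by_cases hb : (v', true) ∈ outs w m
  · rw [decide_eq_true hb]
    exact hb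
  · rw [decide_eq_false hb]
    cases b
    · exact hp
    · exact absurd hp hb

/-- The instances for a fixed word. -/
def Ev (B : BP (Cell n A) A N) (q : Fin N) (T : ℕ) (w : ℕ → Fin 3) (m : ℕ)
    (I : Cell n A → A) : Prop :=
  CF I ∧ {c | ∃ j, obs B I q j = Sum.inl c}.ncard ≤ T ∧
    ∀ v ∈ owners w m, Blk (obs B I q) I v (slot w m v)

theorem ev_bound [Fintype A] (B : BP (Cell n A) A N) (q : Fin N) (T : ℕ) (w : ℕ → Fin 3) (m : ℕ)
    (hΓ : ∀ v ∈ owners w m, IsNd n v ∧ v ≠ (0, 0)) :
    (Nat.card {I : Cell n A → A // Ev B q T w m I} : ℝ) ≤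
      (T / Fintype.card A : ℝ) ^ (owners w m).card * Nat.card (Cell n A → A) := by
  have h := secrets B q T (owners w m) (slot w m) hΓ
  have hk : (0 : ℝ) < Fintype.card A := by
    have : 0 < Fintype.card A := Fintype.card_pos
    exact_mod_cast this
  have h' : (Nat.card {I : Cell n A → A // Ev B q T w m I} : ℝ) *
      (Fintype.card A : ℝ) ^ (owners w m).card ≤
      (T : ℝ) ^ (owners w m).card * Nat.card (Cell n A → A) := by
    exact_mod_cast h
  rw [div_pow, div_mul_eq_mul_div, le_div_iff₀ (pow_pos hk _)]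
  exact h'

theorem words_le (L : ℕ) : ∑ m ∈ Finset.range (L + 1), (3 : ℝ) ^ (m - 1) ≤ 3 ^ L := by
  induction L with
  | zero => simp
  | succ L ih =>
    rw [Finset.sum_range_succ, Nat.add_sub_cancel, pow_succ]
    have : (0 : ℝ) < 3 ^ L := by positivity
    linarith

/-- The union bound over all words. -/
theorem union_bound [Fintype A] (B : BP (Cell n A) A N) (q : Fin N) (T c g0 L : ℕ)
    (P : (Cell n A → A) → Prop)
    (hP : ∀ I, P I → CF I ∧ {c | ∃ j, obs B I q j = Sum.inl c}.ncard ≤ T ∧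
      ∃ (w : ℕ → Fin 3) (m : ℕ), m ≤ 4 * (owners w m).card + c ∧ g0 ≤ (owners w m).card ∧
        (owners w m).card ≤ L ∧ (∀ v ∈ owners w m, IsNd n v ∧ v ≠ (0, 0)) ∧
        ∀ p ∈ outs w m, Blk (obs B I q) I p.1 p.2) :
    (Nat.card {I : Cell n A → A // P I} : ℝ) ≤
      3 ^ c * (∑ g ∈ Finset.Ico g0 (L + 1), (81 * T / Fintype.card A : ℝ) ^ g) *
        Nat.card (Cell n A → A) := by
  classical
  set M : ℝ := ((Nat.card (Cell n A → A) : ℕ) : ℝ) with hM
  set x : ℝ := (T : ℝ) / (Fintype.card A : ℝ) with hx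
  have hx0 : 0 ≤ x := by positivity
  have hM0 : 0 ≤ M := Nat.cast_nonneg _
  -- the finite sets
  let F : ℕ → (m : ℕ) → (Fin (m - 1) → Fin 3) → Finset (Cell n A → A) := fun g m u =>
    if (owners (ext m u) m).card = g ∧ ∀ v ∈ owners (ext m u) m, IsNd n v ∧ v ≠ (0, 0) then
      Finset.univ.filter (fun I => Ev B q T (ext m u) m I) else ∅
  have hF : ∀ g m u, ((F g m u).card : ℝ) ≤ x ^ g * M := by
    intro g m u
    by_cases h : (owners (ext m u) m).card = g ∧
        ∀ v ∈ owners (ext m u) m, IsNd n v ∧ v ≠ (0, 0)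
    · have h1 : F g m u = Finset.univ.filter (fun I => Ev B q T (ext m u) m I) := if_pos h
      rw [h1, ← Fintype.card_subtype, ← Nat.card_eq_fintype_card, ← h.1]
      exact ev_bound B q T (ext m u) m h.2
    · have h1 : F g m u = ∅ := if_neg h
      rw [h1, Finset.card_empty, Nat.cast_zero]
      positivity
  have hsub : Finset.univ.filter (fun I => P I) ⊆ (Finset.Ico g0 (L + 1)).biUnion (fun g =>
      (Finset.range (4 * g + c + 1)).biUnion (fun m => Finset.univ.biUnion (fun u => F g m u))) := by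
    intro I hI
    obtain ⟨hcf, hT, w, m, hm, hg0, hL, hnd, hblk⟩ := hP I (Finset.mem_filter.1 hI).2
    rw [Finset.mem_biUnion]
    refine ⟨(owners w m).card, Finset.mem_Ico.2 ⟨hg0, by omega⟩, ?_⟩
    rw [Finset.mem_biUnion]
    refine ⟨m, Finset.mem_range.2 (by omega), ?_⟩
    rw [Finset.mem_biUnion]
    refine ⟨fun i => w i, Finset.mem_univ _, ?_⟩
    have h1 : (owners (ext m (fun i => w i)) m).card = (owners w m).card ∧
        ∀ v ∈ owners (ext m (fun i => w i)) m, IsNd n v ∧ v ≠ (0, 0) := by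
      rw [← owners_ext]
      exact ⟨rfl, hnd⟩
    have h2 : F (owners w m).card m (fun i => w i) =
      Finset.univ.filter (fun I => Ev B q T (ext m (fun i => w i)) m I) := if_pos h1
    rw [h2, Finset.mem_filter]
    refine ⟨Finset.mem_univ _, hcf, hT, fun v hv => ?_⟩
    have h3 := slot_mem hv
    rw [← outs_ext] at h3
    exact hblk _ h3
  have hcard : (Nat.card {I : Cell n A → A // P I} : ℝ) =
      ((Finset.univ.filter (fun I : Cell n A → A => P I)).card : ℝ) := by
    rw [Nat.card_eq_fintype_card, Fintype.card_subtype]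
  have hinner : ∀ g m : ℕ, ((Finset.univ.biUnion (fun u => F g m u)).card : ℝ) ≤
      3 ^ (m - 1) * (x ^ g * M) := by
    intro g m
    have h1 : ((Finset.univ.biUnion (fun u => F g m u)).card : ℝ) ≤
        ∑ u : Fin (m - 1) → Fin 3, ((F g m u).card : ℝ) := by
      exact_mod_cast Finset.card_biUnion_le
    refine h1.trans ((Finset.sum_le_sum fun u _ => hF g m u).trans (le_of_eq ?_))
    rw [Finset.sum_const, nsmul_eq_mul, Finset.card_univ, Fintype.card_fun, Fintype.card_fin,
      Fintype.card_fin]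
    push_cast
    rfl
  have hmid : ∀ g : ℕ, (((Finset.range (4 * g + c + 1)).biUnion
      (fun m => Finset.univ.biUnion (fun u => F g m u))).card : ℝ) ≤
      3 ^ c * ((81 * x) ^ g * M) := by
    intro g
    have h1 : (((Finset.range (4 * g + c + 1)).biUnion
        (fun m => Finset.univ.biUnion (fun u => F g m u))).card : ℝ) ≤
        ∑ m ∈ Finset.range (4 * g + c + 1),
          ((Finset.univ.biUnion (fun u => F g m u)).card : ℝ) := by
      exact_mod_cast Finset.card_biUnion_le
    refine h1.trans ((Finset.sum_le_sum fun m _ => hinner g m).trans ?_)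
    rw [← Finset.sum_mul]
    have h2 := words_le (4 * g + c)
    have h3 : (0 : ℝ) ≤ x ^ g * M := by positivity
    refine (mul_le_mul_of_nonneg_right h2 h3).trans (le_of_eq ?_)
    rw [pow_add, pow_mul, mul_pow]
    norm_num
    ring
  have htop : (((Finset.Ico g0 (L + 1)).biUnion (fun g =>
      (Finset.range (4 * g + c + 1)).biUnion
        (fun m => Finset.univ.biUnion (fun u => F g m u)))).card : ℝ) ≤
      ∑ g ∈ Finset.Ico g0 (L + 1), 3 ^ c * ((81 * x) ^ g * M) := by
    have h1 : (((Finset.Ico g0 (L + 1)).biUnion (fun g =>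
        (Finset.range (4 * g + c + 1)).biUnion
          (fun m => Finset.univ.biUnion (fun u => F g m u)))).card : ℝ) ≤
        ∑ g ∈ Finset.Ico g0 (L + 1), (((Finset.range (4 * g + c + 1)).biUnion
          (fun m => Finset.univ.biUnion (fun u => F g m u))).card : ℝ) := by
      exact_mod_cast Finset.card_biUnion_le
    exact h1.trans (Finset.sum_le_sum fun g _ => hmid g)
  rw [hcard]
  have h4 : ((Finset.univ.filter (fun I : Cell n A → A => P I)).card : ℝ) ≤
      (((Finset.Ico g0 (L + 1)).biUnion (fun g =>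
        (Finset.range (4 * g + c + 1)).biUnion
          (fun m => Finset.univ.biUnion (fun u => F g m u)))).card : ℝ) := by
    exact_mod_cast Finset.card_le_card hsub
  refine h4.trans (htop.trans (le_of_eq ?_))
  rw [Finset.mul_sum, Finset.sum_mul]
  refine Finset.sum_congr rfl fun g _ => ?_
  rw [hx, mul_div_assoc]
  ring

/-- The geometric sum. -/
theorem geo_le {y : ℝ} (hy0 : 0 ≤ y) (hy : y ≤ 81 / 1000) (g0 L : ℕ) :
    ∑ g ∈ Finset.Ico g0 (L + 1), y ^ g ≤ 10 / 9 * y ^ g0 := by
  have key : ∀ K : ℕ, ∑ i ∈ Finset.range K, y ^ i ≤ 10 / 9 := by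
    intro K
    have h1 : ∑ i ∈ Finset.range K, y ^ i ≤ ∑' i, y ^ i :=
      Summable.sum_le_tsum _ (fun i _ => by positivity)
        (summable_geometric_of_lt_one hy0 (by linarith))
    rw [tsum_geometric_of_lt_one hy0 (by linarith)] at h1
    refine h1.trans ?_
    rw [inv_le_comm₀ (by linarith) (by norm_num)]
    norm_num
    linarith
  rw [Finset.sum_Ico_eq_sum_range]
  have h2 : ∑ i ∈ Finset.range (L + 1 - g0), y ^ (g0 + i) =
      y ^ g0 * ∑ i ∈ Finset.range (L + 1 - g0), y ^ i := by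
    rw [Finset.mul_sum]
    exact Finset.sum_congr rfl fun i _ => pow_add _ _ _
  rw [h2, mul_comm]
  exact mul_le_mul_of_nonneg_right (key _) (by positivity)

theorem owners_le (w : ℕ → Fin 3) (m : ℕ) : (owners w m).card ≤ m := by
  unfold owners outs
  calc _ ≤ _ := Finset.card_le_card (Finset.erase_subset _ _)
    _ ≤ _ := Finset.card_image_le
    _ ≤ _ := Finset.card_image_le
    _ ≤ (Finset.range m).card := Finset.card_filter_le _ _
    _ = m := Finset.card_range m

theorem ratio_le [Fintype A] {T : ℕ} (hT : 1000 * T ≤ Fintype.card A) :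
    (81 * T / Fintype.card A : ℝ) ≤ 81 / 1000 := by
  have hk : (0 : ℝ) < Fintype.card A := by
    have : 0 < Fintype.card A := Fintype.card_pos
    exact_mod_cast this
  have h : (1000 * T : ℝ) ≤ Fintype.card A := by exact_mod_cast hT
  rw [div_le_div_iff₀ hk (by norm_num)]
  linarith

theorem cut_open_bound [Fintype A] (hn : 1 ≤ n) (B : BP (Cell n A) A N) (q : Fin N) (T : ℕ)
    (hT : 1000 * T ≤ Fintype.card A) :
    (Nat.card {I : Cell n A → A // CF I ∧ {c | ∃ j, obs B I q j = Sum.inl c}.ncard ≤ T ∧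
      (∀ s, ¬ Blk (obs B I q) I (0, 0) s) ∧ Cut n (Blk (obs B I q) I)} : ℝ) ≤
      2 * (81 * T / Fintype.card A) ^ 2 * Nat.card (Cell n A → A) := by
  have h := union_bound B q T 0 2 (4 * (n + 1) ^ 2)
    (fun I => CF I ∧ {c | ∃ j, obs B I q j = Sum.inl c}.ncard ≤ T ∧
      (∀ s, ¬ Blk (obs B I q) I (0, 0) s) ∧ Cut n (Blk (obs B I q) I)) (by
      rintro I ⟨hcf, hT', h0, hcut⟩
      obtain ⟨w, m, hm, hm4, h2, hnd, hblk⟩ := word_open hn _ hcut h0
      exact ⟨hcf, hT', w, m, by omega, h2, (owners_le w m).trans hm, hnd, hblk⟩)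
  refine h.trans (mul_le_mul_of_nonneg_right ?_ (Nat.cast_nonneg _))
  have h1 := geo_le (y := 81 * T / Fintype.card A) (by positivity) (ratio_le hT) 2
    (4 * (n + 1) ^ 2)
  rw [pow_zero, one_mul]
  have h2 : (0 : ℝ) ≤ (81 * T / Fintype.card A) ^ 2 := by positivity
  linarith

/-- The other case. -/
theorem cut_close_bound' [Fintype A] (hn : 1 ≤ n) (B : BP (Cell n A) A N) (q : Fin N) (T : ℕ)
    (hT : 1000 * T ≤ Fintype.card A) :
    (Nat.card {I : Cell n A → A // CF I ∧ {c | ∃ j, obs B I q j = Sum.inl c}.ncard ≤ T ∧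
      Cut n (Blk (obs B I q) I) ∧ ∃ v, Reach n (Blk (obs B I q) I) v ∧ v.1 + v.2 = n} : ℝ) ≤
      10 * (81 * T / Fintype.card A) ^ (n / 2 + 1) * Nat.card (Cell n A → A) := by
  have h := union_bound B q T 2 (n / 2 + 1) (4 * (n + 1) ^ 2)
    (fun I => CF I ∧ {c | ∃ j, obs B I q j = Sum.inl c}.ncard ≤ T ∧
      Cut n (Blk (obs B I q) I) ∧ ∃ v, Reach n (Blk (obs B I q) I) v ∧ v.1 + v.2 = n) (by
      rintro I ⟨hcf, hT', hcut, h0⟩
      obtain ⟨w, m, hm0, hm, hm4, hnd, hblk⟩ := word_close hn _ hcut h0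
      exact ⟨hcf, hT', w, m, by omega, by omega, (owners_le w m).trans hm, hnd, hblk⟩)
  refine h.trans (mul_le_mul_of_nonneg_right ?_ (Nat.cast_nonneg _))
  have h1 := geo_le (y := 81 * T / Fintype.card A) (by positivity) (ratio_le hT) (n / 2 + 1)
    (4 * (n + 1) ^ 2)
  have h2 : (0 : ℝ) ≤ (81 * T / Fintype.card A) ^ (n / 2 + 1) := by positivity
  linarith

end Pool.Agent.Helper96.SP
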